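import Mathlib

/-!
# MP_abda90_al : a matricial cycle over `ℝ[ℤ²]` outside the split-conjugation space

For `Γ = ℤ² = ⟨s, t | s t s⁻¹ t⁻¹⟩` with its presentation complex (the torus), the matrix
`a = [[0, s], [-t, 0]]` satisfies `d₀* a d₀ = 0`, but it is not of the form `d₁* x + y d₁`,
because all entries of the matrices of that form have augmentation `0`.
-/

namespace Pool.Agent.Results.MP_abda90_al.TorusCounterexample

open Matrix

variable {G : Type} [Group G]

/-- The involution `(∑ a_γ γ)* = ∑ a_γ γ⁻¹` of the real group algebra. -/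
noncomputable def inv (x : MonoidAlgebra ℝ G) : MonoidAlgebra ℝ G :=
  MonoidAlgebra.mapDomain (fun g => g⁻¹) x

/-- The matrix `a*`: the transpose of `a` with the involution applied to every entry. -/
noncomputable def adj {p q : ℕ} (a : Matrix (Fin p) (Fin q) (MonoidAlgebra ℝ G)) :
    Matrix (Fin q) (Fin p) (MonoidAlgebra ℝ G) :=
  Matrix.of fun i j => inv (a j i)

/-- `(g, r)` is a presentation of `G` with `k` generators `g 0, …, g (k-1)` and `l` relators
`r 0, …, r (l-1)`. -/
structure IsPresentation {k l : ℕ} (g : Fin k → G) (r : Fin l → FreeGroup (Fin k)) : Prop where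
  surj : Function.Surjective (FreeGroup.lift g)
  ker : (FreeGroup.lift g).ker = Subgroup.normalClosure (Set.range r)

/-- For a generator `x_j`, the permutation `z ↦ δ_ij + g_j z` of the group algebra. -/
noncomputable def foxPerm {k : ℕ} (g : Fin k → G) (i j : Fin k) :
    Equiv.Perm (MonoidAlgebra ℝ G) where
  toFun z := (if i = j then 1 else 0) + MonoidAlgebra.of ℝ G (g j) * z
  invFun z := MonoidAlgebra.of ℝ G (g j)⁻¹ * (z - if i = j then 1 else 0)
  left_inv z := by
    dsimp only
    rw [add_sub_cancel_left, ← mul_assoc, ← map_mul, inv_mul_cancel, map_one, one_mul]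
  right_inv z := by
    dsimp only
    rw [← mul_assoc, ← map_mul, mul_inv_cancel, map_one, one_mul, add_sub_cancel]

/-- The Fox derivative `∂w/∂x_i` (mapped to the group algebra of `G`) of a word `w`: the word
`w = x_{j₁}^{±1} ⋯` acts by the composition of the affine maps `z ↦ δ_ij + g_j z`, and
`∂w/∂x_i` is the image of `0`. See `fox_mul` and `fox_of` for the defining properties. -/
noncomputable def fox {k : ℕ} (g : Fin k → G) (i : Fin k) (w : FreeGroup (Fin k)) :
    MonoidAlgebra ℝ G :=
  FreeGroup.lift (foxPerm g i) w 0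

theorem fox_affine {k : ℕ} (g : Fin k → G) (i : Fin k) (w : FreeGroup (Fin k))
    (z : MonoidAlgebra ℝ G) : FreeGroup.lift (foxPerm g i) w z =
      fox g i w + MonoidAlgebra.of ℝ G (FreeGroup.lift g w) * z := by
  unfold fox
  induction w using FreeGroup.induction_on generalizing z with
  | C1 => rw [map_one, map_one, map_one, one_mul, Equiv.Perm.one_apply, Equiv.Perm.one_apply, zero_add]
  | of x => simp [foxPerm]
  | inv_of x _ =>
    rw [map_inv, map_inv, FreeGroup.lift_apply_of, FreeGroup.lift_apply_of]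
    show MonoidAlgebra.of ℝ G (g x)⁻¹ * (z - if i = x then 1 else 0) =
      MonoidAlgebra.of ℝ G (g x)⁻¹ * (0 - if i = x then 1 else 0) + _
    rw [← mul_add]
    congr 1
    abel
  | mul x y hx hy =>
    rw [map_mul, map_mul, map_mul, Equiv.Perm.mul_apply, Equiv.Perm.mul_apply, hy, hx, hx
      (FreeGroup.lift (foxPerm g i) y 0), mul_add, ← mul_assoc, add_assoc]

/-- The product rule `∂(u w) = ∂u + u ∂w`. -/
theorem fox_mul {k : ℕ} (g : Fin k → G) (i : Fin k) (u w : FreeGroup (Fin k)) :
    fox g i (u * w) = fox g i u + MonoidAlgebra.of ℝ G (FreeGroup.lift g u) * fox g i w := by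
  rw [← fox_affine]
  unfold fox
  rw [map_mul, Equiv.Perm.mul_apply]

/-- `∂x_j/∂x_i = δ_ij`. -/
theorem fox_of {k : ℕ} (g : Fin k → G) (i j : Fin k) :
    fox g i (FreeGroup.of j) = if i = j then 1 else 0 := by
  simp [fox, foxPerm]

theorem fox_inv {k : ℕ} (g : Fin k → G) (i : Fin k) (u : FreeGroup (Fin k)) :
    fox g i u⁻¹ = - (MonoidAlgebra.of ℝ G (FreeGroup.lift g u)⁻¹ * fox g i u) := by
  have h1 : fox g i (u⁻¹ * u) = 0 := by
    rw [inv_mul_cancel]
    simp [fox]
  rw [fox_mul, map_inv] at h1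
  exact eq_neg_of_add_eq_zero_left h1

/-- The boundary matrix `d₀` of the presentation complex: the column with entries `1 - g_i`. -/
noncomputable def d0 {k : ℕ} (g : Fin k → G) : Matrix (Fin k) (Fin 1) (MonoidAlgebra ℝ G) :=
  Matrix.of fun i _ => 1 - MonoidAlgebra.of ℝ G (g i)

/-- The boundary matrix `d₁` of the presentation complex: the matrix of the Fox derivatives of
the relators. -/
noncomputable def d1 {k l : ℕ} (g : Fin k → G) (r : Fin l → FreeGroup (Fin k)) :
    Matrix (Fin l) (Fin k) (MonoidAlgebra ℝ G) :=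
  Matrix.of fun j i => fox g i (r j)

/-- `ℤ²`, written multiplicatively. -/
abbrev Z2 : Type := Multiplicative (ℤ × ℤ)

/-- The generator `s`. -/
def s : Z2 := Multiplicative.ofAdd (1, 0)

/-- The generator `t`. -/
def t : Z2 := Multiplicative.ofAdd (0, 1)

/-- The generators of `ℤ²`. -/
def gens : Fin 2 → Z2 := ![s, t]

/-- The relator `x y x⁻¹ y⁻¹`. -/
def rel : Fin 1 → FreeGroup (Fin 2) :=
  ![FreeGroup.of 0 * FreeGroup.of 1 * (FreeGroup.of 0)⁻¹ * (FreeGroup.of 1)⁻¹]

theorem rel_val : FreeGroup.lift gens (rel 0) = 1 := by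
  simp [rel, gens, mul_comm s t]

theorem presentation : IsPresentation gens rel := by
  constructor
  · intro x
    refine ⟨FreeGroup.of 0 ^ (Multiplicative.toAdd x).1 * FreeGroup.of 1 ^ (Multiplicative.toAdd x).2, ?_⟩
    rw [map_mul, map_zpow, map_zpow, FreeGroup.lift_apply_of, FreeGroup.lift_apply_of]
    apply Multiplicative.toAdd.injective
    rw [toAdd_mul, toAdd_zpow, toAdd_zpow]
    ext
    · simp [gens, s, t]
    · simp [gens, s, t]
  · apply le_antisymm
    · intro w hw
      rw [MonoidHom.mem_ker] at hw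
      let N := Subgroup.normalClosure (Set.range rel)
      let q : FreeGroup (Fin 2) →* FreeGroup (Fin 2) ⧸ N := QuotientGroup.mk' N
      have hcomm : q (FreeGroup.of 0) * q (FreeGroup.of 1) = q (FreeGroup.of 1) * q (FreeGroup.of 0) := by
        have h1 : q (rel 0) = 1 := by
          rw [QuotientGroup.mk'_apply, QuotientGroup.eq_one_iff]
          exact Subgroup.subset_normalClosure ⟨0, rfl⟩
        simp only [rel, Matrix.cons_val_zero, map_mul, map_inv] at h1
        rw [mul_inv_eq_one, mul_inv_eq_iff_eq_mul] at h1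
        exact h1
      have hc : Commute (q (FreeGroup.of 0)) (q (FreeGroup.of 1)) := hcomm
      let ψ : Z2 →* FreeGroup (Fin 2) ⧸ N :=
        { toFun := fun x => q (FreeGroup.of 0) ^ (Multiplicative.toAdd x).1 *
            q (FreeGroup.of 1) ^ (Multiplicative.toAdd x).2
          map_one' := by simp
          map_mul' := by
            intro x y
            rw [toAdd_mul, Prod.fst_add, Prod.snd_add, _root_.zpow_add, _root_.zpow_add]
            have h2 : Commute (q (FreeGroup.of 1) ^ (Multiplicative.toAdd x).2)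
              (q (FreeGroup.of 0) ^ (Multiplicative.toAdd y).1) := (hc.zpow_zpow _ _).symm
            rw [mul_assoc, mul_assoc, ← mul_assoc (q (FreeGroup.of 0) ^ (Multiplicative.toAdd y).1),
              ← h2.eq, mul_assoc] }
      have hψ : ψ.comp (FreeGroup.lift gens) = q := by
        apply FreeGroup.ext_hom
        intro a
        rw [MonoidHom.comp_apply, FreeGroup.lift_apply_of]
        fin_cases a
        · show q (FreeGroup.of 0) ^ (1 : ℤ) * q (FreeGroup.of 1) ^ (0 : ℤ) = q (FreeGroup.of 0)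
          simp
        · show q (FreeGroup.of 0) ^ (0 : ℤ) * q (FreeGroup.of 1) ^ (1 : ℤ) = q (FreeGroup.of 1)
          simp
      have h3 : q w = 1 := by
        rw [← hψ, MonoidHom.comp_apply, hw, map_one]
      rw [QuotientGroup.mk'_apply, QuotientGroup.eq_one_iff] at h3
      exact h3
    · apply Subgroup.normalClosure_le_normal
      rintro _ ⟨j, rfl⟩
      fin_cases j
      exact rel_val

/-- The augmentation. -/
noncomputable def aug : MonoidAlgebra ℝ Z2 →ₐ[ℝ] ℝ := MonoidAlgebra.lift ℝ ℝ Z2 1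

theorem aug_of (x : Z2) : aug (MonoidAlgebra.of ℝ Z2 x) = 1 := by
  simp [aug]

theorem inv_of (x : Z2) : inv (MonoidAlgebra.of ℝ Z2 x) = MonoidAlgebra.of ℝ Z2 x⁻¹ := by
  simp [inv, MonoidAlgebra.of_apply, MonoidAlgebra.mapDomain_single]

theorem inv_add (x y : MonoidAlgebra ℝ Z2) : inv (x + y) = inv x + inv y := by
  simp [inv, MonoidAlgebra.mapDomain_add]

theorem inv_smul (c : ℝ) (x : MonoidAlgebra ℝ Z2) : inv (c • x) = c • inv x := by
  simp [inv, MonoidAlgebra.mapDomain_smul]

theorem inv_neg (x : MonoidAlgebra ℝ Z2) : inv (-x) = - inv x := by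
  rw [← neg_one_smul ℝ, inv_smul, neg_one_smul]

theorem aug_inv (x : MonoidAlgebra ℝ Z2) : aug (inv x) = aug x := by
  induction x using MonoidAlgebra.induction_on with
  | of g => rw [inv_of, aug_of, aug_of]
  | add x y hx hy => rw [inv_add, map_add, map_add, hx, hy]
  | smul c x hx => rw [inv_smul, map_smul, map_smul, hx]

theorem of_mul_of_inv (x : Z2) : MonoidAlgebra.of ℝ Z2 x * MonoidAlgebra.of ℝ Z2 x⁻¹ = 1 := by
  rw [← map_mul, mul_inv_cancel, map_one]

theorem d1_zero : d1 gens rel 0 0 = 1 - MonoidAlgebra.of ℝ Z2 t := by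
  have hs := of_mul_of_inv s
  simp only [d1, Matrix.of_apply, rel, Matrix.cons_val_zero, fox_mul, fox_inv, fox_of]
  simp only [map_mul, map_inv, FreeGroup.lift_apply_of, gens, Matrix.cons_val_zero,
    Matrix.cons_val_one]
  rw [if_pos trivial, if_neg (by decide)]
  linear_combination (-(MonoidAlgebra.of ℝ Z2 t)) * hs

theorem d1_one : d1 gens rel 0 1 = MonoidAlgebra.of ℝ Z2 s - 1 := by
  have hs := of_mul_of_inv s
  have ht := of_mul_of_inv t
  simp only [d1, Matrix.of_apply, rel, Matrix.cons_val_zero, fox_mul, fox_inv, fox_of]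
  simp only [map_mul, map_inv, FreeGroup.lift_apply_of, gens, Matrix.cons_val_zero,
    Matrix.cons_val_one]
  rw [if_pos trivial, if_neg (by decide)]
  linear_combination (-(MonoidAlgebra.of ℝ Z2 t) * MonoidAlgebra.of ℝ Z2 t⁻¹) * hs - ht

/-- The matricial cycle. -/
noncomputable def cyc : Matrix (Fin 2) (Fin 2) (MonoidAlgebra ℝ Z2) :=
  !![0, MonoidAlgebra.of ℝ Z2 s; - MonoidAlgebra.of ℝ Z2 t, 0]

theorem inv_one_sub (x : Z2) : inv (1 - MonoidAlgebra.of ℝ Z2 x) = 1 - MonoidAlgebra.of ℝ Z2 x⁻¹ := by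
  rw [sub_eq_add_neg, inv_add, inv_neg, inv_of, ← map_one (MonoidAlgebra.of ℝ Z2), inv_of, inv_one,
    sub_eq_add_neg]

theorem cyc_mem : adj (d0 gens) * cyc * d0 gens = 0 := by
  have hs := of_mul_of_inv s
  have ht := of_mul_of_inv t
  ext1 i j
  fin_cases i
  fin_cases j
  simp only [Matrix.mul_apply, Fin.sum_univ_two, adj, d0, Matrix.of_apply, cyc, gens, inv_one_sub,
    Matrix.zero_apply]
  simp only [Matrix.cons_val_zero, Matrix.cons_val_one, Matrix.cons_val',
    Matrix.cons_val_fin_one]
  linear_combination (MonoidAlgebra.of ℝ Z2 t - 1) * hs + (1 - MonoidAlgebra.of ℝ Z2 s) * ht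

theorem not_mem (x : Matrix (Fin 1) (Fin 2) (MonoidAlgebra ℝ Z2))
    (y : Matrix (Fin 2) (Fin 1) (MonoidAlgebra ℝ Z2)) :
    cyc ≠ adj (d1 gens rel) * x + y * d1 gens rel := by
  intro h
  have h1 := congrFun (congrFun h 0) 1
  simp only [Matrix.add_apply, Matrix.mul_apply, Fin.sum_univ_one, adj, Matrix.of_apply] at h1
  rw [d1_zero, d1_one] at h1
  have h2 := congrArg aug h1
  rw [map_add, map_mul, map_mul, aug_inv, map_sub, map_sub, map_one, aug_of, aug_of] at h2
  have h3 : cyc 0 1 = MonoidAlgebra.of ℝ Z2 s := by simp [cyc]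
  rw [h3, aug_of] at h2
  norm_num at h2

/-- **Disproof, already for `n = 1`.** For the group `Γ = ℤ²` (written multiplicatively), with the
presentation `⟨s, t | s t s⁻¹ t⁻¹⟩`, and with `d₀` the column of the `1 - s, 1 - t` and `d₁` the
matrix of Fox derivatives of the relator (the boundary matrices of the presentation complex, a
torus), there is a `2 × 2` matrix `a` over `ℝΓ` with `d₀* a d₀ = 0` that cannot be written as
`d₁* x + y d₁`. -/
theorem result :
    IsPresentation gens rel ∧
    ∃ a : Matrix (Fin 2) (Fin 2) (MonoidAlgebra ℝ Z2),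
      adj (d0 gens) * a * d0 gens = 0 ∧
      ¬ ∃ (x : Matrix (Fin 1) (Fin 2) (MonoidAlgebra ℝ Z2))
          (y : Matrix (Fin 2) (Fin 1) (MonoidAlgebra ℝ Z2)),
          a = adj (d1 gens rel) * x + y * d1 gens rel :=
  ⟨presentation, cyc, cyc_mem, fun ⟨x, y, h⟩ => not_mem x y h⟩

end Pool.Agent.Results.MP_abda90_al.TorusCounterexample
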